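import Pool.Agent.R235.PH.AR
import Pool.Agent.R235.PH.CJ
import Pool.Agent.R235.PH.CP
import Pool.Agent.R235.PH.CR
import Pool.Agent.R235.PH.CT
import Pool.Agent.R235.PH.DER
import Pool.Agent.R235.PH.FLOW
import Pool.Agent.R235.PH.INT
import Pool.Agent.R235.PH.LL
import Pool.Agent.R235.PH.Main
import Pool.Agent.R235.PH.RC
import Pool.Agent.R235.PH.FR
import Pool.Agent.R235.PH.CHO
import Pool.Agent.R235.PH.ELL

/-!
# MP_5d95cf_gt, Q1: a Poisson homeomorphism maps every symplectic leaf homeomorphically onto a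
symplectic leaf

The definitions are in `Pool/Agent/R235/PH/Stm.lean`.
-/

set_option autoImplicit false

open Set Filter Topology
open scoped ContDiff Manifold

namespace Pool.Agent.Results.MP_5d95cf_gt.LeavesToLeaves

open Pool.Agent.R235.PH

/-- Let `M` be a Poisson manifold and let `φ0` be a Poisson homeomorphism of `M`: a homeomorphism
which is the limit of Poisson diffeomorphisms `φ k`, uniformly on compact sets (convergence in the
compact-open topology). Then for every symplectic leaf `L` the image `φ0(L)` is a symplectic leaf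
and `φ0 : L → φ0(L)` is a homeomorphism for the topologies of the leaves. -/
theorem result : ∀ (n : ℕ) (M : Type) [TopologicalSpace M] [T2Space M]
    [ChartedSpace (V n) M] [IsManifold 𝓘(ℝ, V n) ∞ M] (P : Poisson n M) (φ : ℕ → M ≃ₜ M)
    (φ0 : M ≃ₜ M), (∀ k, IsPD P (φ k)) →
    Tendsto (fun k => (⟨φ k, (φ k).continuous⟩ : C(M, M))) atTop (𝓝 ⟨φ0, φ0.continuous⟩) →
    ∀ x : M, φ0 '' leaf P x = leaf P (φ0 x) ∧
      ∃ F : leaf P x ≃ leaf P (φ0 x), (∀ y : leaf P x, (F y : M) = φ0 y) ∧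
        Continuous[leafTopAt P x, leafTopAt P (φ0 x)] F ∧
        Continuous[leafTopAt P (φ0 x), leafTopAt P x] F.symm := by
  have hRC : S_RC := PRC.t_RC
  have hELL : S_ELL := PELL.t_ELL hRC PFLOW.t_FLOW PFR.t_FR PCHO.t_CHO (PINT.t_INT hRC)
  have hLL : S_LL := PLL.t_LL PDER.t_DER PCP.t_CP PCR.t_CR hELL
  have hCT : S_CT := PCT.t_CT hLL (PCR.t_FIN PDER.t_DER PCR.t_CR) PCJ.t_CJ PRK.t_RK PAR.t_AR
  exact PMAIN.t_MAIN hCT PRK.t_RK PAR.t_AR

end Pool.Agent.Results.MP_5d95cf_gt.LeavesToLeaves
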